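import Pool.Agent.Lib.H98M.MC0

/-!
# H89L, file Cyc: a cycle of `F` with vertices on both sides, `F` connected with a cut vertex

`HCat cross W`: the plane connected sets on `W` with a cut vertex. `cycG`: the splitting argument of H98M.MC for any
hypothesis on the inner side. `cycv`: a closed walk `L` of `F` in `A + v` (`A` one side of a separation of `W - v`)
with vertices on both sides, from `HCat` for smaller vertex sets.
-/

set_option autoImplicit false
set_option linter.unusedSectionVars false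

namespace H89L

open Finset H98P H98Z H98M

variable {V : Type*} [Fintype V] [DecidableEq V]

/-- The cut vertex statement on the vertex set `W`. -/
def HCat (cross : Sym2 V → Sym2 V → Prop) (W : Finset V) : Prop :=
  ∀ (F : Finset (Sym2 V)) (v : V), F ⊆ LW W → Plane cross F → v ∈ W → ¬ Disc W F →
    Disc (W.erase v) (F.filter fun e => v ∉ e) → Acy cross (Un cross W F)

theorem chordsG {cross : Sym2 V → Sym2 V → Prop} (hsymm : ∀ e f, cross e f → cross f e)
    {W Z : Finset V} {F : Finset (Sym2 V)}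
    (hA : ∀ Y : Finset (Sym2 V), Y ⊆ LW Z → Plane cross (F ∪ Y) → Acy cross (Un cross W (F ∪ Y))) :
    ∀ (k : ℕ) (Y : Finset (Sym2 V)), (LW Z \ Y).card = k → Y ⊆ LW Z → Plane cross (F ∪ Y) →
      Acy cross ((Un cross W (F ∪ Y)).filter fun e => e ∉ LW Z) := by
  intro k
  induction k using Nat.strong_induction_on with
  | _ k ih =>
    intro Y hk hY hp
    have hU : (Un cross W (F ∪ Y)).filter (fun e => e ∉ LW Z) ∪
        (Un cross W (F ∪ Y)).filter (fun e => e ∈ LW Z) = Un cross W (F ∪ Y) := by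
      rw [union_comm]
      exact filter_union_filter_not_eq _ _
    have hA := hA Y hY hp
    rw [← hU] at hA
    refine split_mp hsymm ?_ (fun Y' hY' hn hp' => ?_) hA
    · rw [disjoint_left]
      intro e h1 h2
      exact (mem_filter.1 h1).2 (mem_filter.1 h2).2
    · have hm : ∀ e ∈ Y', e ∈ Un cross W (F ∪ Y) ∧ e ∈ LW Z := fun e he => mem_filter.1 (hY' he)
      have hpl : Plane cross (F ∪ (Y ∪ Y')) := by
        rw [← union_assoc]
        exact plane_un hsymm hp hp' fun e he f hf h => (mem_un.1 (hm f hf).1).2.1 e he (hsymm _ _ h)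
      have hYY : Y ∪ Y' ⊆ LW Z := union_subset hY fun e he => (hm e he).2
      have heq : Miss cross ((Un cross W (F ∪ Y)).filter fun e => e ∉ LW Z) Y' =
          (Un cross W (F ∪ (Y ∪ Y'))).filter fun e => e ∉ LW Z := by
        ext e
        rw [mem_miss, mem_filter, mem_filter, mem_un, mem_un]
        constructor
        · rintro ⟨⟨⟨h1, h2, h3⟩, h4⟩, h5⟩
          refine ⟨⟨h1, fun f hf => ?_, fun h => ?_⟩, h4⟩
          · rw [mem_union, mem_union] at hf
            rcases hf with hf | hf | hf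
            · exact h2 f (mem_union_left _ hf)
            · exact h2 f (mem_union_right _ hf)
            · exact h5 f hf
          · rw [mem_union] at h
            rcases h with h | h
            · exact h3 (mem_union_left _ h)
            · exact h4 (hYY h)
        · rintro ⟨⟨h1, h2, h3⟩, h4⟩
          refine ⟨⟨⟨h1, fun f hf => ?_, fun h => ?_⟩, h4⟩, fun f hf => ?_⟩
          · rw [mem_union] at hf
            rcases hf with hf | hf
            · exact h2 f (mem_union_left _ hf)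
            · exact h2 f (mem_union_right _ (mem_union_left _ hf))
          · rw [mem_union] at h
            rcases h with h | h
            · exact h3 (mem_union_left _ h)
            · exact h4 (hY h)
          · exact h2 f (mem_union_right _ (mem_union_right _ hf))
      rw [heq]
      refine ih _ ?_ (Y ∪ Y') rfl hYY hpl
      rw [← hk]
      refine card_lt_card ⟨sdiff_subset_sdiff (le_refl _) subset_union_left, fun h => ?_⟩
      obtain ⟨e, he⟩ := hn
      have h1 : e ∈ LW Z \ Y := mem_sdiff.2 ⟨(hm e he).2, fun h2 =>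
        (mem_un.1 (hm e he).1).2.2 (mem_union_right _ h2)⟩
      exact (mem_sdiff.1 (h h1)).2 (mem_union_right _ he)

/-- The splitting argument. -/
theorem cycG {cross : Sym2 V → Sym2 V → Prop} (hG : Geo cross) {W : Finset V}
    {F : Finset (Sym2 V)} (hF : F ⊆ LW W) (hp : Plane cross F) {L : List V}
    (hLW : ∀ a ∈ L, a ∈ W) (hLF : ∀ e ∈ ce L, e ∈ F) {x : V} (hxL : x ∉ L)
    {W' Z : Finset V} {F' : Finset (Sym2 V)}
    (hmW' : ∀ w, w ∈ W' ↔ w ∈ W ∧ ¬ (w ∉ L ∧ cy (cr cross s(w, x)) L ≠ 0))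
    (hF' : ∀ e, e ∈ F' ↔ e ∈ F ∧ e ∈ LW W') (hZ : ∀ a, a ∈ Z ↔ a ∈ L)
    (hin : ∀ Y : Finset (Sym2 V), Y ⊆ LW Z → Plane cross (F' ∪ Y) →
      Acy cross (Un cross W' (F' ∪ Y))) :
    Acy cross (Un cross W F) := by
  have hnd : ∀ e ∈ ce L, ¬ e.IsDiag := by
    intro e he
    have h1 := hF (hLF e he)
    induction e with
    | _ a b =>
      rw [Sym2.mk_isDiag_iff]
      exact (mem_LW.1 h1).2.2
  have hW'W : W' ⊆ W := fun w hw => ((hmW' w).1 hw).1
  have hLW' : ∀ a ∈ L, a ∈ W' := fun a ha => (hmW' a).2 ⟨hLW a ha, fun h => h.1 ha⟩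
  have hceF' : ∀ e ∈ ce L, e ∈ F' := by
    intro e he
    refine (hF' e).2 ⟨hLF e he, ?_⟩
    have h1 := hnd e he
    induction e with
    | _ a b =>
      rw [mem_LW]
      exact ⟨hLW' a (mem_ce he (Sym2.mem_mk_left a b)), hLW' b (mem_ce he (Sym2.mem_mk_right a b)),
        fun h => h1 (Sym2.mk_isDiag_iff.2 h)⟩
  have inner : ∀ Y : Finset (Sym2 V), Y ⊆ LW Z → Plane cross (F' ∪ Y) →
      Acy cross ((Un cross W' (F' ∪ Y)).filter fun e => e ∉ LW Z) := fun Y hY hpY =>
    chordsG hG.symm hin _ Y rfl hY hpY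
  -- an edge with an end inside and an edge with an end outside do not cross
  have hsep : ∀ p q r t : V, p ∈ W' → p ∉ L → r ∈ W → r ∉ W' → (∀ e ∈ ce L, ¬ cross s(p, q) e) →
      (∀ e ∈ ce L, ¬ cross s(r, t) e) → ¬ cross s(p, q) s(r, t) := by
    intro p q r t hpW hpL hrW hr h1 h2 hc
    have hr' : r ∉ L ∧ cy (cr cross s(r, x)) L ≠ 0 := by
      by_contra h
      exact hr ((hmW' r).2 ⟨hrW, h⟩)
    obtain ⟨hrL, hrx⟩ := hr'
    have h3 := sep_cy hG hpL hrL hc hnd h1 h2
    have h4 : cy (cr cross s(p, x)) L = 0 := by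
      by_contra h5
      exact ((hmW' p).1 hpW).2 ⟨hpL, h5⟩
    have h5 := sd_add hG hrL hpL hxL
    rw [sd_symm r p, h3, h4, add_zero] at h5
    exact hrx h5.symm
  -- the split
  obtain ⟨S, hS⟩ : ∃ S : Finset (Sym2 V), ∀ e, e ∈ S ↔ e ∈ Un cross W F ∧ e ∈ LW W' ∧ e ∉ LW Z :=
    ⟨(Un cross W F).filter fun e => e ∈ LW W' ∧ e ∉ LW Z, fun e => mem_filter⟩
  have hSU : S ∪ (Un cross W F \ S) = Un cross W F := by
    rw [union_sdiff_self_eq_union]
    exact union_eq_right.2 fun e he => ((hS e).1 he).1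
  have hpt : ∀ e ∈ LW W', e ∉ LW Z → ∃ p q, e = s(p, q) ∧ p ∈ W' ∧ q ∈ W' ∧ p ∉ L := by
    intro e he hez
    induction e with
    | _ a b =>
      rw [mem_LW] at he
      by_cases ha : a ∈ L
      · by_cases hb : b ∈ L
        · exact absurd (mem_LW.2 ⟨(hZ a).2 ha, (hZ b).2 hb, he.2.2⟩) hez
        · exact ⟨b, a, Sym2.eq_swap, he.2.1, he.1, hb⟩
      · exact ⟨a, b, rfl, he.1, he.2.1, ha⟩
  have hmain : ∀ Y : Finset (Sym2 V), Y ⊆ Un cross W F \ S → Plane cross Y →
      Acy cross (Miss cross S Y) := by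
    intro Y hY hYp
    obtain ⟨Yz, hYz⟩ : ∃ Yz : Finset (Sym2 V), ∀ e, e ∈ Yz ↔ e ∈ Y ∧ e ∈ LW Z :=
      ⟨Y.filter fun e => e ∈ LW Z, fun e => mem_filter⟩
    have hYU : ∀ e ∈ Y, e ∈ Un cross W F ∧ e ∉ S := fun e he => mem_sdiff.1 (hY he)
    have heq : Miss cross S Y = (Un cross W' (F' ∪ Yz)).filter fun e => e ∉ LW Z := by
      ext e
      rw [mem_miss, hS, mem_filter, mem_un (F := F' ∪ Yz)]
      constructor
      · rintro ⟨⟨h1, h2, h3⟩, h4⟩
        obtain ⟨h5, h6, h7⟩ := mem_un.1 h1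
        refine ⟨⟨h2, fun f hf => ?_, fun h => ?_⟩, h3⟩
        · rcases mem_union.1 hf with hf | hf
          · exact h6 f ((hF' f).1 hf).1
          · exact h4 f ((hYz f).1 hf).1
        · rcases mem_union.1 h with h | h
          · exact h7 ((hF' e).1 h).1
          · exact h3 ((hYz e).1 h).2
      · rintro ⟨⟨h1, h2, h3⟩, h4⟩
        obtain ⟨p, q, rfl, hpW, hqW, hpL⟩ := hpt e h1 h4
        have hce : ∀ f ∈ ce L, ¬ cross s(p, q) f := fun f hf => h2 f (mem_union_left _ (hceF' f hf))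
        have hout : ∀ f : Sym2 V, f ∈ LW W → f ∉ LW W' → (∀ g ∈ ce L, ¬ cross f g) →
            ¬ cross s(p, q) f := by
          intro f hf hf' hfL
          induction f with
          | _ a b =>
            rw [mem_LW] at hf hf'
            by_cases ha : a ∈ W'
            · by_cases hb : b ∈ W'
              · exact absurd ⟨ha, hb, hf.2.2⟩ hf'
              · rw [Sym2.eq_swap (a := a)] at hfL ⊢
                exact hsep p q b a hpW hpL hf.2.1 hb hce hfL
            · exact hsep p q a b hpW hpL hf.1 ha hce hfL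
        have hU : s(p, q) ∈ Un cross W F := by
          rw [mem_un]
          refine ⟨LW_mono hW'W h1, fun f hf => ?_, fun h => ?_⟩
          · by_cases hf' : f ∈ LW W'
            · exact h2 f (mem_union_left _ ((hF' f).2 ⟨hf, hf'⟩))
            · exact hout f (hF hf) hf' fun g hg => hp f hf g (hLF g hg)
          · exact h3 (mem_union_left _ ((hF' _).2 ⟨h, h1⟩))
        refine ⟨⟨hU, h1, h4⟩, fun f hf => ?_⟩
        obtain ⟨h5, h6⟩ := hYU f hf
        obtain ⟨h7, h8, h9⟩ := mem_un.1 h5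
        by_cases hfZ : f ∈ LW Z
        · exact h2 f (mem_union_right _ ((hYz f).2 ⟨hf, hfZ⟩))
        · refine hout f h7 (fun h => h6 ((hS f).2 ⟨h5, h, hfZ⟩)) fun g hg => h8 g (hLF g hg)
    rw [heq]
    refine inner Yz (fun e he => ((hYz e).1 he).2) ?_
    refine plane_un hG.symm (plane_sub (fun e he => ((hF' e).1 he).1) hp)
      (plane_sub (fun e he => ((hYz e).1 he).1) hYp) fun e he f hf h => ?_
    exact (mem_un.1 (hYU f ((hYz f).1 hf).1).1).2.1 e ((hF' e).1 he).1 (hG.symm _ _ h)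
  rw [← hSU]
  refine split_mpr hG.symm disjoint_sdiff (fun Y hY _ hYp => hmain Y hY hYp) ?_
  have h0 := hmain ∅ (empty_subset _) fun e he => absurd he (notMem_empty e)
  have h1 : Miss cross S ∅ = S := by
    ext e
    rw [mem_miss]
    exact ⟨fun h => h.1, fun h => ⟨h, fun f hf => absurd hf (notMem_empty f)⟩⟩
  rw [h1] at h0
  exact h0

/-- The inner side of a closed walk of `F` in `A + v` contains a vertex `b` of the other part. -/
theorem cycv_aux {cross : Sym2 V → Sym2 V → Prop} (hG : Geo cross) {W : Finset V}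
    {F : Finset (Sym2 V)} (hF : F ⊆ LW W) (hp : Plane cross F) (hc : ¬ Disc W F) {A B : Finset V}
    {v : V} (hv : v ∈ W) (hAB : Disjoint A B) (hABW : A ∪ B = W.erase v)
    (hs : ∀ x ∈ A, ∀ y ∈ B, s(x, y) ∉ F) {L : List V} (hL : ∀ a ∈ L, a = v ∨ a ∈ A)
    (hL0 : ∃ a ∈ L, a ∈ A) (hLF : ∀ e ∈ ce L, e ∈ F) {x y b : V} (hy : y ∈ W)
    (hxL : x ∉ L) (hyL : y ∉ L) (hsd : cy (cr cross s(y, x)) L = 1) (hb : b ∈ B)
    (hbx : cy (cr cross s(b, x)) L = 0) (ih : ∀ W' : Finset V, W' ⊂ W → HCat cross W') :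
    Acy cross (Un cross W F) := by
  have hAW : ∀ a ∈ A, a ∈ W ∧ a ≠ v := fun a ha => by
    have h1 : a ∈ W.erase v := by rw [← hABW]; exact mem_union_left _ ha
    exact ⟨(mem_erase.1 h1).2, (mem_erase.1 h1).1⟩
  have hBW : ∀ a ∈ B, a ∈ W ∧ a ≠ v := fun a ha => by
    have h1 : a ∈ W.erase v := by rw [← hABW]; exact mem_union_right _ ha
    exact ⟨(mem_erase.1 h1).2, (mem_erase.1 h1).1⟩
  have hbL : b ∉ L := by
    intro h
    rcases hL b h with h1 | h1
    · exact (hBW b hb).2 h1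
    · exact disjoint_left.1 hAB h1 hb
  have hLW : ∀ a ∈ L, a ∈ W := by
    intro a ha
    rcases hL a ha with h1 | h1
    · rw [h1]; exact hv
    · exact (hAW a h1).1
  have hcases : ∀ w ∈ W, w = v ∨ w ∈ A ∨ w ∈ B := by
    intro w hw
    by_cases h : w = v
    · exact Or.inl h
    · right
      rw [← mem_union, hABW]
      exact mem_erase.2 ⟨h, hw⟩
  -- `F`-edges off `L` do not change the side
  have hside : ∀ p q : V, s(p, q) ∈ F → p ∉ L → q ∉ L →
      cy (cr cross s(p, x)) L = cy (cr cross s(q, x)) L := by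
    intro p q hpq hpL hqL
    have h1 : cy (cr cross s(p, q)) L = 0 := by
      by_contra h
      obtain ⟨e, he, h2⟩ := sd_cross h
      exact hp _ hpq e (hLF e he) h2
    rw [← sd_add hG hpL hqL hxL, h1, zero_add]
  obtain ⟨W', hmW'⟩ : ∃ W' : Finset V, ∀ w, w ∈ W' ↔ w ∈ W ∧ ¬ (w ∉ L ∧ cy (cr cross s(w, x)) L ≠ 0) :=
    ⟨W.filter fun w => ¬ (w ∉ L ∧ cy (cr cross s(w, x)) L ≠ 0), fun w => mem_filter⟩
  have hW'W : W' ⊆ W := fun w hw => ((hmW' w).1 hw).1
  have hssub : W' ⊂ W := ⟨hW'W, fun h => ((hmW' y).1 (h hy)).2 ⟨hyL, by rw [hsd]; exact one_ne_zero⟩⟩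
  have hbW' : b ∈ W' := (hmW' b).2 ⟨(hBW b hb).1, fun h => h.2 hbx⟩
  have hLW' : ∀ a ∈ L, a ∈ W' := fun a ha => (hmW' a).2 ⟨hLW a ha, fun h => h.1 ha⟩
  -- `v` is on the side of `b`
  have hvW' : v ∈ W' := by
    by_contra hvW'
    have hv1 : v ∉ L ∧ cy (cr cross s(v, x)) L ≠ 0 := by
      by_contra h
      exact hvW' ((hmW' v).2 ⟨hv, h⟩)
    refine hc ⟨B.filter fun w => w ∈ W', W \ (B.filter fun w => w ∈ W'), ⟨b, mem_filter.2 ⟨hb, hbW'⟩⟩,
      ⟨v, mem_sdiff.2 ⟨hv, fun h => (hBW v (mem_filter.1 h).1).2 rfl⟩⟩, disjoint_sdiff, ?_, ?_⟩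
    · rw [union_sdiff_self_eq_union]
      exact union_eq_right.2 fun w hw => (hBW w (mem_filter.1 hw).1).1
    · intro p hp' q hq hpq
      obtain ⟨hpB, hpW'⟩ := mem_filter.1 hp'
      obtain ⟨hqW, hq1⟩ := mem_sdiff.1 hq
      have hpL : p ∉ L := by
        intro h
        rcases hL p h with h1 | h1
        · exact (hBW p hpB).2 h1
        · exact disjoint_left.1 hAB h1 hpB
      have hp0 : cy (cr cross s(p, x)) L = 0 := by
        by_contra h
        exact ((hmW' p).1 hpW').2 ⟨hpL, h⟩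
      rcases hcases q hqW with h1 | h1 | h1
      · subst h1
        exact hv1.2 ((hside p q hpq hpL hv1.1).symm.trans hp0)
      · exact hs q h1 p hpB (by rw [Sym2.eq_swap]; exact hpq)
      · have hqW' : q ∉ W' := fun h => hq1 (mem_filter.2 ⟨h1, h⟩)
        have hq2 : q ∉ L ∧ cy (cr cross s(q, x)) L ≠ 0 := by
          by_contra h
          exact hqW' ((hmW' q).2 ⟨hqW, h⟩)
        exact hq2.2 ((hside p q hpq hpL hq2.1).symm.trans hp0)
  obtain ⟨F', hF'⟩ : ∃ F' : Finset (Sym2 V), ∀ e, e ∈ F' ↔ e ∈ F ∧ e ∈ LW W' :=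
    ⟨F.filter fun e => e ∈ LW W', fun e => mem_filter⟩
  obtain ⟨Z, hZ⟩ : ∃ Z : Finset V, ∀ a, a ∈ Z ↔ a ∈ L := ⟨L.toFinset, fun a => List.mem_toFinset⟩
  have hZW' : Z ⊆ W' := fun a ha => hLW' a ((hZ a).1 ha)
  -- `F'` is connected on `W'`
  have hF'W' : F' ⊆ LW W' := fun e he => ((hF' e).1 he).2
  have hceF' : ∀ e ∈ ce L, e ∈ F' := by
    intro e he
    refine (hF' e).2 ⟨hLF e he, ?_⟩
    have h1 := hF (hLF e he)
    induction e with
    | _ a c =>
      rw [mem_LW] at h1 ⊢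
      exact ⟨hLW' a (mem_ce he (Sym2.mem_mk_left a c)), hLW' c (mem_ce he (Sym2.mem_mk_right a c)),
        h1.2.2⟩
  have key : ∀ C D : Finset V, C ∪ D = W' → Disjoint C D → D.Nonempty → (∀ a ∈ L, a ∈ C) →
      (∀ p ∈ C, ∀ q ∈ D, s(p, q) ∉ F') → False := by
    intro C D hCD hd hD hLC hno
    obtain ⟨d, hdD⟩ := hD
    have hDW' : ∀ w ∈ D, w ∈ W' ∧ w ∉ L := fun w hw =>
      ⟨by rw [← hCD]; exact mem_union_right _ hw, fun h => disjoint_left.1 hd (hLC w h) hw⟩
    refine hc ⟨D, W \ D, ⟨d, hdD⟩, ?_, disjoint_sdiff, ?_, ?_⟩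
    · obtain ⟨a, haL, _⟩ := hL0
      exact ⟨a, mem_sdiff.2 ⟨hLW a haL, fun h => (hDW' a h).2 haL⟩⟩
    · rw [union_sdiff_self_eq_union]
      exact union_eq_right.2 fun w hw => hW'W (hDW' w hw).1
    · intro p hp' q hq hpq
      obtain ⟨hqW, hqD⟩ := mem_sdiff.1 hq
      obtain ⟨hpW', hpL⟩ := hDW' p hp'
      have hne := (mem_LW.1 (hF hpq)).2.2
      by_cases hqW' : q ∈ W'
      · have hqC : q ∈ C := by
          rw [← hCD] at hqW'
          rcases mem_union.1 hqW' with h | h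
          · exact h
          · exact absurd h hqD
        refine hno q hqC p hp' ((hF' _).2 ⟨by rw [Sym2.eq_swap]; exact hpq, ?_⟩)
        exact mem_LW.2 ⟨hqW', hpW', Ne.symm hne⟩
      · have hq2 : q ∉ L ∧ cy (cr cross s(q, x)) L ≠ 0 := by
          by_contra h
          exact hqW' ((hmW' q).2 ⟨hqW, h⟩)
        have hp0 : cy (cr cross s(p, x)) L = 0 := by
          by_contra h
          exact ((hmW' p).1 hpW').2 ⟨hpL, h⟩
        exact hq2.2 ((hside p q hpq hpL hq2.1).symm.trans hp0)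
  have hcon : ¬ Disc W' F' := by
    rintro ⟨C, D, hC, hD, hd, hCD, hno⟩
    obtain ⟨l0, hl0, hl1⟩ : ∃ a l, L = a :: l := by
      obtain ⟨a, ha, _⟩ := hL0
      cases L with
      | nil => exact absurd ha List.not_mem_nil
      | cons a l => exact ⟨a, l, rfl⟩
    have hwe : ∀ e ∈ we (l0 :: (hl0 ++ [l0])), e ∈ F' := by
      rw [hl1] at hceF'
      exact hceF'
    have h0 : l0 ∈ W' := hLW' l0 (by rw [hl1]; exact List.mem_cons_self)
    have hall : ∀ C D : Finset V, C ∪ D = W' → (∀ p ∈ C, ∀ q ∈ D, s(p, q) ∉ F') → l0 ∈ C →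
        ∀ a ∈ L, a ∈ C := by
      intro C D hCD hno h1 a ha
      rw [hl1] at ha
      rcases List.mem_cons.1 ha with h | h
      · rw [h]; exact h1
      · exact walk_in hF'W' hCD hno (hl0 ++ [l0]) l0 h1 hwe a (List.mem_append_left _ h)
    have h0' := h0
    rw [← hCD] at h0'
    rcases mem_union.1 h0' with h | h
    · exact key C D hCD hd hD (hall C D hCD hno h) hno
    · have hno' : ∀ p ∈ D, ∀ q ∈ C, s(p, q) ∉ F' := fun p hp' q hq h2 =>
        hno q hq p hp' (by rw [Sym2.eq_swap]; exact h2)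
      exact key D C (by rw [union_comm]; exact hCD) hd.symm hC
        (hall D C (by rw [union_comm]; exact hCD) hno' h) hno'
  refine cycG hG hF hp hLW hLF hxL hmW' hF' hZ fun Y hY hpY => ?_
  refine ih W' hssub (F' ∪ Y) v (union_subset hF'W' (hY.trans (LW_mono hZW'))) hpY hvW' ?_ ?_
  · rintro ⟨C, D, h1, h2, h3, h4, h5⟩
    exact hcon ⟨C, D, h1, h2, h3, h4, fun p hp' q hq h => h5 p hp' q hq (mem_union_left _ h)⟩
  · obtain ⟨a, haL, haA⟩ := hL0
    refine ⟨A ∩ W', B ∩ W', ⟨a, mem_inter.2 ⟨haA, hLW' a haL⟩⟩, ⟨b, mem_inter.2 ⟨hb, hbW'⟩⟩,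
      disjoint_of_subset_left inter_subset_left (disjoint_of_subset_right inter_subset_left hAB),
      ?_, ?_⟩
    · rw [← union_inter_distrib_right, hABW]
      ext w
      rw [mem_inter, mem_erase, mem_erase]
      exact ⟨fun h => ⟨h.1.1, h.2⟩, fun h => ⟨⟨h.1, hW'W h.2⟩, h.2⟩⟩
    · intro p hp' q hq h
      have h1 := (mem_filter.1 h).1
      rcases mem_union.1 h1 with h2 | h2
      · exact hs p (mem_inter.1 hp').1 q (mem_inter.1 hq).1 ((hF' _).1 h2).1
      · have h3 := (hZ q).1 (mem_LW.1 (hY h2)).2.1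
        rcases hL q h3 with h4 | h4
        · exact (hBW q (mem_inter.1 hq).1).2 h4
        · exact disjoint_left.1 hAB h4 (mem_inter.1 hq).1

/-- A closed walk of `F` in `A + v` with vertices on both sides. -/
theorem cycv {cross : Sym2 V → Sym2 V → Prop} (hG : Geo cross) {W : Finset V}
    {F : Finset (Sym2 V)} (hF : F ⊆ LW W) (hp : Plane cross F) (hc : ¬ Disc W F) {A B : Finset V}
    {v : V} (hv : v ∈ W) (hB : B.Nonempty) (hAB : Disjoint A B) (hABW : A ∪ B = W.erase v)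
    (hs : ∀ x ∈ A, ∀ y ∈ B, s(x, y) ∉ F) {L : List V} (hL : ∀ a ∈ L, a = v ∨ a ∈ A)
    (hLF : ∀ e ∈ ce L, e ∈ F) {x y : V} (hx : x ∈ W) (hy : y ∈ W)
    (hxL : x ∉ L) (hyL : y ∉ L) (hsd : cy (cr cross s(x, y)) L = 1)
    (ih : ∀ W' : Finset V, W' ⊂ W → HCat cross W') :
    Acy cross (Un cross W F) := by
  have hL0 : ∃ a ∈ L, a ∈ A := by
    by_contra h
    push Not at h
    have hv' : ∀ a ∈ L, a = v := fun a ha => (hL a ha).resolve_right (h a ha)
    cases L with
    | nil => exact zero_ne_one hsd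
    | cons a l =>
      cases l with
      | nil =>
        have h1 := hF (hLF s(a, a) (by rw [ce, List.nil_append, we]; exact List.mem_cons_self))
        exact (mem_LW.1 h1).2.2 rfl
      | cons c l =>
        have h1 := hF (hLF s(a, c) (by rw [ce, List.cons_append, we]; exact List.mem_cons_self))
        rw [hv' a List.mem_cons_self, hv' c (List.mem_cons_of_mem _ List.mem_cons_self)] at h1
        exact (mem_LW.1 h1).2.2 rfl
  obtain ⟨b, hb⟩ := hB
  have hBW : ∀ a ∈ B, a ∈ W ∧ a ≠ v := fun a ha => by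
    have h1 : a ∈ W.erase v := by rw [← hABW]; exact mem_union_right _ ha
    exact ⟨(mem_erase.1 h1).2, (mem_erase.1 h1).1⟩
  have hbL : b ∉ L := by
    intro h
    rcases hL b h with h1 | h1
    · exact (hBW b hb).2 h1
    · exact disjoint_left.1 hAB h1 hb
  rcases zmod2 (cy (cr cross s(b, x)) L) with h1 | h1
  · exact cycv_aux hG hF hp hc hv hAB hABW hs hL hL0 hLF hy hxL hyL (by rw [sd_symm]; exact hsd) hb
      h1 ih
  · refine cycv_aux hG hF hp hc hv hAB hABW hs hL hL0 hLF hx hyL hxL hsd hb ?_ ih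
    rw [← sd_add hG hbL hxL hyL, h1, hsd]
    exact CharTwo.add_self_eq_zero 1

end H89L
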