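import Pool.Agent.Lib.H89L.Theta
import Pool.Agent.Lib.H89L.Cyc

/-!
# H89L, file Gr: lists of edges, rotation of closed walks, paths in a vertex set
-/

set_option autoImplicit false
set_option linter.unusedSectionVars false

namespace H89L

open Finset H98P H98Z H98M

variable {V : Type*} [Fintype V] [DecidableEq V]

theorem we_rev (e : Sym2 V) : ∀ l : List V, e ∈ we l.reverse ↔ e ∈ we l
  | [] => Iff.rfl
  | [_] => Iff.rfl
  | a :: b :: l => by
    have h := we_rev e (b :: l)
    have h1 : (a :: b :: l).reverse = (b :: l).reverse ++ [a] := by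
      rw [List.reverse_cons]
    obtain ⟨c, m, hm⟩ : ∃ c m, (b :: l).reverse = c :: m := by
      cases hr : (b :: l).reverse with
      | nil => exact absurd hr (by simp)
      | cons c m => exact ⟨c, m, rfl⟩
    have h2 : m.getLastD c = b := by
      have h3 : (b :: l).reverse = l.reverse ++ b :: [] := by rw [List.reverse_cons]
      have h4 : (c :: m).getLastD a = b := by
        rw [← hm, h3, getLastD_append_cons, List.getLastD_nil]
      rwa [List.getLastD_cons] at h4
    rw [h1, hm, List.cons_append, we_append, h2, we, List.mem_append, List.mem_cons, ← hm, h, we,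
      List.mem_cons, Sym2.eq_swap]
    simp only [List.not_mem_nil, or_false]
    tauto

/-- The edges of a walk with one more vertex at the end. -/
theorem mem_we_snoc {e : Sym2 V} {l : List V} {x y : V} :
    e ∈ we (x :: (l ++ [y])) ↔ e ∈ we (x :: l) ∨ e = s(l.getLastD x, y) := by
  rw [we_append, List.mem_append, List.mem_cons, we]
  simp

/-- The edges of a walk through `y`. -/
theorem mem_we_mid {e : Sym2 V} {l m : List V} {x y : V} :
    e ∈ we (x :: (l ++ y :: m)) ↔ e ∈ we (x :: (l ++ [y])) ∨ e ∈ we (y :: m) := by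
  rw [we_append, List.mem_append, List.mem_cons, mem_we_snoc, or_assoc]

/-- The edges of a closed walk through `x` and `y`. -/
theorem mem_ce_mid {e : Sym2 V} {l m : List V} {x y : V} :
    e ∈ ce (x :: (l ++ y :: m)) ↔ e ∈ we (x :: (l ++ [y])) ∨ e ∈ we (y :: (m ++ [x])) := by
  have e1 : l ++ y :: m ++ [x] = l ++ y :: (m ++ [x]) := by
    rw [List.append_assoc]
    rfl
  rw [ce, e1, mem_we_mid]

theorem mem_ce_rot1 {e : Sym2 V} {l : List V} {a : V} : e ∈ ce (a :: l) ↔ e ∈ ce (l ++ [a]) := by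
  cases l with
  | nil => exact Iff.rfl
  | cons b l =>
    have h := mem_ce_mid (e := e) (l := []) (m := l) (x := a) (y := b)
    have h' := mem_ce_mid (e := e) (l := l) (m := []) (x := b) (y := a)
    rw [List.nil_append] at h h'
    rw [h, List.cons_append, h', or_comm]
    exact Iff.rfl

theorem mem_ce_rot {e : Sym2 V} : ∀ (l1 l2 : List V) (q : V),
    e ∈ ce (l1 ++ q :: l2) ↔ e ∈ ce (q :: (l2 ++ l1))
  | [], l2, q => by
    rw [List.nil_append, List.append_nil]
  | a :: l1, l2, q => by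
    have h := mem_ce_rot (e := e) l1 (l2 ++ [a]) q
    rw [List.cons_append, mem_ce_rot1]
    have e1 : l1 ++ q :: l2 ++ [a] = l1 ++ q :: (l2 ++ [a]) := by
      rw [List.append_assoc]
      rfl
    have e2 : l2 ++ [a] ++ l1 = l2 ++ a :: l1 := by
      rw [List.append_assoc]
      rfl
    rw [e1, h, e2]

/-- The graph of `F` on `S`. -/
def Gs (F : Finset (Sym2 V)) (S : Finset V) : SimpleGraph V where
  Adj x y := x ≠ y ∧ x ∈ S ∧ y ∈ S ∧ s(x, y) ∈ F
  symm := ⟨fun x y h => ⟨h.1.symm, h.2.2.1, h.2.1, by rw [Sym2.eq_swap]; exact h.2.2.2⟩⟩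
  loopless := ⟨fun x h => h.1 rfl⟩

theorem walk_we {F : Finset (Sym2 V)} {S : Finset V} : ∀ {a b : V} (w : (Gs F S).Walk a b),
    (∀ e ∈ we w.support, e ∈ F) ∧ (a ∈ S → ∀ x ∈ w.support, x ∈ S) ∧
      ∃ l, w.support = a :: l ∧ l.getLastD a = b
  | a, _, SimpleGraph.Walk.nil => by
    refine ⟨?_, ?_, [], rfl, rfl⟩
    · intro e he
      rw [SimpleGraph.Walk.support_nil, we] at he
      exact absurd he List.not_mem_nil
    · intro ha x hx
      rw [SimpleGraph.Walk.support_nil, List.mem_singleton] at hx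
      rw [hx]
      exact ha
  | a, b, SimpleGraph.Walk.cons (v := u) h p => by
    obtain ⟨h1, h2, l, h3, h4⟩ := walk_we p
    have hu : (Gs F S).Adj a u := h
    refine ⟨?_, ?_, u :: l, ?_, ?_⟩
    · intro e he
      rw [SimpleGraph.Walk.support_cons, h3, we, List.mem_cons] at he
      rcases he with rfl | he
      · exact hu.2.2.2
      · exact h1 e (by rw [h3]; exact he)
    · intro ha x hx
      rw [SimpleGraph.Walk.support_cons, List.mem_cons] at hx
      rcases hx with rfl | hx
      · exact ha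
      · exact h2 hu.2.2.1 x hx
    · rw [SimpleGraph.Walk.support_cons, h3]
    · rw [List.getLastD_cons]
      exact h4

theorem path_list {F : Finset (Sym2 V)} {S : Finset V} {a b : V} (h : (Gs F S).Reachable a b)
    (ha : a ∈ S) : ∃ l : List V, (a :: l).Nodup ∧ (∀ x ∈ a :: l, x ∈ S) ∧
      (∀ e ∈ we (a :: l), e ∈ F) ∧ l.getLastD a = b := by
  obtain ⟨w⟩ := h
  obtain ⟨h1, h2, l, h3, h4⟩ := walk_we w.toPath.1
  refine ⟨l, ?_, ?_, ?_, h4⟩
  · rw [← h3]
    exact w.toPath.2.support_nodup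
  · rw [← h3]
    exact h2 ha
  · rw [← h3]
    exact h1

/-- The part of `S` reached from `a`. -/
theorem reach_set {F : Finset (Sym2 V)} {S : Finset V} {a : V} (ha : a ∈ S) :
    ∃ K : Finset V, a ∈ K ∧ K ⊆ S ∧ (∀ x ∈ K, (Gs F S).Reachable a x) ∧
      ∀ x ∈ K, ∀ y ∈ S, x ≠ y → s(x, y) ∈ F → y ∈ K := by
  classical
  refine ⟨S.filter fun x => (Gs F S).Reachable a x, ?_, filter_subset _ _, ?_, ?_⟩
  · exact mem_filter.2 ⟨ha, SimpleGraph.Reachable.refl a⟩
  · exact fun x hx => (mem_filter.1 hx).2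
  · intro x hx y hy hxy h
    obtain ⟨h1, h2⟩ := mem_filter.1 hx
    refine mem_filter.2 ⟨hy, h2.trans (SimpleGraph.Adj.reachable ?_)⟩
    exact ⟨hxy, h1, hy, h⟩

/-- Two vertices of `K` are joined in `K`. -/
theorem reach_in {F : Finset (Sym2 V)} {S K : Finset V} {a : V} (haK : a ∈ K)
    (h1 : ∀ x ∈ K, (Gs F S).Reachable a x) (hKS : K ⊆ S)
    (h2 : ∀ x ∈ K, ∀ y ∈ S, x ≠ y → s(x, y) ∈ F → y ∈ K) :
    ∀ x ∈ K, (Gs F K).Reachable a x := by
  intro x hx
  obtain ⟨w⟩ := h1 x hx
  have key : ∀ {c d : V} (w : (Gs F S).Walk c d), c ∈ K → (Gs F K).Reachable c d := by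
    intro c d w
    induction w with
    | nil => exact fun _ => SimpleGraph.Reachable.refl _
    | cons h p ih =>
      intro hc
      have hd := h2 _ hc _ h.2.2.1 h.1 h.2.2.2
      exact (SimpleGraph.Adj.reachable (G := Gs F K) ⟨h.1, hc, hd, h.2.2.2⟩).trans (ih hd)
  exact key w haK

end H89L
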