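import Pool.Agent.Lib.H89L.Gr

/-!
# H89L, file LB: the leaf block

`F` plane, connected on `W` with a cut vertex; smaller vertex sets known (`HCat`). Then the complex of `F` is acyclic,
or there are a cut vertex `v` and a cycle `v :: l` of `F` such that `l` is all of one side of a separation of `W - v`,
and every edge of `F` inside `v :: l` misses all edges from `l` to the other side which miss the cycle.
-/

set_option autoImplicit false
set_option linter.unusedSectionVars false

namespace H89L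

open Finset H98P H98Z H98M

variable {V : Type*} [Fintype V] [DecidableEq V]

/-- `A` is one side of a separation of `W - v`. -/
structure SepV (F : Finset (Sym2 V)) (W A : Finset V) (v : V) : Prop where
  hv : v ∈ W
  ne : A.Nonempty
  sub : A ⊆ W.erase v
  co : ((W.erase v) \ A).Nonempty
  no : ∀ x ∈ A, ∀ y ∈ (W.erase v) \ A, s(x, y) ∉ F

/-- A cycle of `F` in `A + v` through `v`. -/
structure Cyc (F : Finset (Sym2 V)) (A : Finset V) (v : V) (C : List V) : Prop where
  nd : C.Nodup
  hv : v ∈ C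
  sub : ∀ a ∈ C, a = v ∨ a ∈ A
  ed : ∀ e ∈ ce C, e ∈ F
  len : 3 ≤ C.length

theorem Cyc.rot {F : Finset (Sym2 V)} {A : Finset V} {v q : V} {l1 l2 : List V}
    (h : Cyc F A v (l1 ++ q :: l2)) : Cyc F A v (q :: (l2 ++ l1)) := by
  have hp : (l1 ++ q :: l2).Perm (q :: (l2 ++ l1)) := by
    have h1 : (l1 ++ q :: l2).Perm ((q :: l2) ++ l1) := List.perm_append_comm
    exact h1
  refine ⟨hp.nodup_iff.1 h.nd, hp.mem_iff.1 h.hv, fun a ha => h.sub a (hp.mem_iff.2 ha), ?_, ?_⟩
  · intro e he
    exact h.ed e ((mem_ce_rot l1 l2 q).2 he)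
  · rw [← hp.length_eq]
    exact h.len

/-- A cycle through two of its vertices. -/
theorem Cyc.two {F : Finset (Sym2 V)} {A : Finset V} {v x y : V} {C : List V} (h : Cyc F A v C)
    (hx : x ∈ C) (hy : y ∈ C) (hxy : x ≠ y) : ∃ l m, Cyc F A v (x :: (l ++ y :: m)) ∧
      (∀ a, a ∈ C ↔ a ∈ x :: (l ++ y :: m)) ∧ (∀ e, e ∈ ce C ↔ e ∈ ce (x :: (l ++ y :: m))) ∧
      C.length = (x :: (l ++ y :: m)).length := by
  obtain ⟨l1, l2, rfl⟩ := List.append_of_mem hx
  have hp : (l1 ++ x :: l2).Perm (x :: (l2 ++ l1)) := by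
    have h1 : (l1 ++ x :: l2).Perm ((x :: l2) ++ l1) := List.perm_append_comm
    exact h1
  have h1 := h.rot
  have hy1 : y ∈ l2 ++ l1 := by
    have h2 := hp.mem_iff.1 hy
    rcases List.mem_cons.1 h2 with h3 | h3
    · exact absurd h3.symm hxy
    · exact h3
  obtain ⟨l, m, hlm⟩ := List.append_of_mem hy1
  refine ⟨l, m, ?_, ?_, ?_, ?_⟩
  · rw [← hlm]
    exact h1
  · intro a
    rw [← hlm]
    exact hp.mem_iff
  · intro e
    rw [← hlm]
    exact mem_ce_rot l1 l2 x
  · rw [← hlm]
    exact hp.length_eq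

theorem Cyc.arc1 {F : Finset (Sym2 V)} {A : Finset V} {v x y : V} {l m : List V}
    (h : Cyc F A v (x :: (l ++ y :: m))) : ∀ e ∈ we (x :: (l ++ [y])), e ∈ F := fun e he =>
  h.ed e (mem_ce_mid.2 (Or.inl he))

theorem Cyc.arc2 {F : Finset (Sym2 V)} {A : Finset V} {v x y : V} {l m : List V}
    (h : Cyc F A v (x :: (l ++ y :: m))) : ∀ e ∈ we (y :: (m ++ [x])), e ∈ F := fun e he =>
  h.ed e (mem_ce_mid.2 (Or.inr he))

/-- An edge `x y` of the cycle is replaced by an ear. -/
theorem Cyc.ear {F : Finset (Sym2 V)} {A : Finset V} {v x y : V} {m Q : List V}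
    (h : Cyc F A v (x :: y :: m)) (hQ : ∀ e ∈ we (x :: (Q ++ [y])), e ∈ F) (hQn : Q.Nodup)
    (hQA : ∀ a ∈ Q, a ∈ A) (hQC : ∀ a ∈ Q, a ∉ x :: y :: m) :
    Cyc F A v (x :: (Q ++ y :: m)) := by
  have hnd := h.nd
  rw [List.nodup_cons] at hnd
  refine ⟨?_, ?_, ?_, ?_, ?_⟩
  · rw [List.nodup_cons, List.nodup_append]
    refine ⟨?_, hQn, hnd.2, ?_⟩
    · intro h1
      rcases List.mem_append.1 h1 with h2 | h2
      · exact hQC x h2 List.mem_cons_self
      · exact hnd.1 h2
    · intro a ha b hb hab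
      exact hQC a ha (hab ▸ List.mem_cons_of_mem _ hb)
  · rcases List.mem_cons.1 h.hv with h1 | h1
    · exact List.mem_cons.2 (Or.inl h1)
    · exact List.mem_cons_of_mem _ (List.mem_append_right _ h1)
  · intro a ha
    rcases List.mem_cons.1 ha with h1 | h1
    · exact h.sub a (List.mem_cons.2 (Or.inl h1))
    · rcases List.mem_append.1 h1 with h2 | h2
      · exact Or.inr (hQA a h2)
      · exact h.sub a (List.mem_cons_of_mem _ h2)
  · intro e he
    rcases mem_ce_mid.1 he with h1 | h1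
    · exact hQ e h1
    · have h2 : e ∈ ce (x :: ([] ++ y :: m)) := mem_ce_mid.2 (Or.inr h1)
      exact h.ed e h2
  · have := h.len
    simp only [List.length_cons, List.length_append] at this ⊢
    omega

/-- A chord of the cycle. -/
theorem star {cross : Sym2 V → Sym2 V → Prop} (hG : Geo cross) {W : Finset V}
    {F : Finset (Sym2 V)} (hF : F ⊆ LW W) (hp : Plane cross F) (hc : ¬ Disc W F) {A B : Finset V}
    {v : V} (hv : v ∈ W) (hB : B.Nonempty) (hAB : Disjoint A B) (hABW : A ∪ B = W.erase v)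
    (hs : ∀ x ∈ A, ∀ y ∈ B, s(x, y) ∉ F) (ih : ∀ W' : Finset V, W' ⊂ W → HCat cross W')
    {C : List V} (hC : Cyc F A v C) {a b x y : V} (ha : a ∈ C) (haA : a ∈ A) (hb : b ∈ B)
    (hx : x ∈ C) (hy : y ∈ C) (hxy : s(x, y) ∈ F) (hab : ∀ e ∈ ce C, ¬ cross s(a, b) e)
    (hcr : cross s(a, b) s(x, y)) : Acy cross (Un cross W F) := by
  have hne : x ≠ y := (mem_LW.1 (hF hxy)).2.2
  have haW : a ∈ W := by
    have h1 : a ∈ W.erase v := by rw [← hABW]; exact mem_union_left _ haA
    exact (mem_erase.1 h1).2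
  have hbW : b ∈ W ∧ b ≠ v := by
    have h1 : b ∈ W.erase v := by rw [← hABW]; exact mem_union_right _ hb
    exact ⟨(mem_erase.1 h1).2, (mem_erase.1 h1).1⟩
  have hbC : ∀ c ∈ C, c ≠ b := by
    intro c hc h1
    rcases hC.sub c hc with h | h
    · exact hbW.2 (h1.symm.trans h)
    · exact disjoint_left.1 hAB h (h1 ▸ hb)
  have hax : a ≠ x := by
    rintro rfl
    exact hG.adj a b y hcr
  have hay : a ≠ y := by
    rintro rfl
    rw [Sym2.eq_swap (a := x)] at hcr
    exact hG.adj a b x hcr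
  -- the walk from `y` to `x` which avoids `a`, closed with the edge `xy`
  have main : ∀ (x y : V) (l m : List V), Cyc F A v (x :: (l ++ y :: m)) →
      (∀ c, c ∈ C ↔ c ∈ x :: (l ++ y :: m)) → (∀ e, e ∈ ce C ↔ e ∈ ce (x :: (l ++ y :: m))) →
      s(x, y) ∈ F → cross s(a, b) s(x, y) → a ≠ x → a ≠ y → a ∈ l → Acy cross (Un cross W F) := by
    intro x y l m h1 h2 h3 h4 h5 hax hay hal
    have hm : ∀ c ∈ y :: (m ++ [x]), c ∈ C := by
      intro c hc
      rw [h2]
      rcases List.mem_cons.1 hc with h6 | h6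
      · rw [h6]
        exact List.mem_cons_of_mem _ (List.mem_append_right _ List.mem_cons_self)
      · rcases List.mem_append.1 h6 with h7 | h7
        · exact List.mem_cons_of_mem _ (List.mem_append_right _ (List.mem_cons_of_mem _ h7))
        · rw [List.mem_singleton.1 h7]
          exact List.mem_cons_self
    have hnd := h1.nd
    rw [List.nodup_cons, List.nodup_append] at hnd
    obtain ⟨hxn, hln, hmn, hlm⟩ := hnd
    have ham : a ∉ y :: (m ++ [x]) := by
      intro h6
      rcases List.mem_cons.1 h6 with h7 | h7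
      · exact hay h7
      · rcases List.mem_append.1 h7 with h8 | h8
        · exact hlm a hal a (List.mem_cons_of_mem _ h8) rfl
        · exact hax (List.mem_singleton.1 h8)
    have hcy : cy (cr cross s(a, b)) (y :: (m ++ [x])) = 1 := by
      rw [cy, wk_snoc, getLastD_append, cr_one h5]
      have h6 : wk (cr cross s(a, b)) (y :: (m ++ [x])) = 0 := by
        refine wk_zero _ _ fun e he => cr_zero (hab e ?_)
        rw [h3, mem_ce_mid]
        exact Or.inr he
      rw [h6, zero_add]
    refine cycv hG hF hp hc hv hB hAB hABW hs (L := y :: (m ++ [x])) (x := a) (y := b)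
      (fun c hc => hC.sub c (hm c hc)) ?_ haW hbW.1 ham (fun h => hbC b (hm b h) rfl) hcy ih
    intro e he
    rw [mem_ce_mid] at he
    rcases he with he | he
    · exact h1.arc2 e he
    · rw [List.nil_append, we, List.mem_cons] at he
      rcases he with rfl | he
      · exact h4
      · exact absurd he List.not_mem_nil
  obtain ⟨l, m, h1, h2, h3, _⟩ := hC.two hx hy hne
  have ha1 := (h2 a).1 ha
  rcases List.mem_cons.1 ha1 with h4 | h4
  · exact absurd h4 hax
  · rcases List.mem_append.1 h4 with h5 | h5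
    · exact main x y l m h1 h2 h3 hxy hcr hax hay h5
    · rcases List.mem_cons.1 h5 with h6 | h6
      · exact absurd h6 hay
      · have h7 : Cyc F A v ((x :: l) ++ y :: m) := h1
        have h8 := h7.rot
        have hp : ((x :: l) ++ y :: m).Perm (y :: (m ++ x :: l)) := List.perm_append_comm
        refine main y x m l h8 (fun c => (h2 c).trans hp.mem_iff)
          (fun e => (h3 e).trans (mem_ce_rot (x :: l) m y)) ?_ ?_ hay hax h6
        · rw [Sym2.eq_swap]
          exact hxy
        · rw [Sym2.eq_swap (a := y)]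
          exact hcr

/-- THETA: a cycle with an ear between two nonadjacent vertices of it. -/
theorem theta_acy {cross : Sym2 V → Sym2 V → Prop} (hG : Geo cross) {W : Finset V}
    {F : Finset (Sym2 V)} (hF : F ⊆ LW W) (hp : Plane cross F) (hc : ¬ Disc W F) {A B : Finset V}
    {v : V} (hv : v ∈ W) (hB : B.Nonempty) (hAB : Disjoint A B) (hABW : A ∪ B = W.erase v)
    (hs : ∀ x ∈ A, ∀ y ∈ B, s(x, y) ∉ F) (ih : ∀ W' : Finset V, W' ⊂ W → HCat cross W')
    {x y : V} {l m Q : List V} (hC : Cyc F A v (x :: (l ++ y :: m))) (hl : l ≠ []) (hm : m ≠ [])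
    (hQ0 : Q ≠ []) (hQ : ∀ e ∈ we (x :: (Q ++ [y])), e ∈ F) (hQn : Q.Nodup)
    (hQA : ∀ a ∈ Q, a ∈ A) (hQC : ∀ a ∈ Q, a ∉ x :: (l ++ y :: m)) :
    Acy cross (Un cross W F) := by
  have hAW : ∀ a ∈ A, a ∈ W := fun a ha => by
    have h1 : a ∈ W.erase v := by rw [← hABW]; exact mem_union_left _ ha
    exact (mem_erase.1 h1).2
  have hsubW : ∀ a, a = v ∨ a ∈ A → a ∈ W := by
    intro a ha
    rcases ha with h | h
    · rw [h]; exact hv
    · exact hAW a h
  have hBW : ∀ a ∈ B, a ∈ W ∧ a ≠ v := fun a ha => by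
    have h1 : a ∈ W.erase v := by rw [← hABW]; exact mem_union_right _ ha
    exact ⟨(mem_erase.1 h1).2, (mem_erase.1 h1).1⟩
  obtain ⟨b, hb⟩ := hB
  have hbn : ∀ a, a = v ∨ a ∈ A → a ≠ b := by
    intro a ha h1
    rcases ha with h | h
    · exact (hBW b hb).2 (h1.symm.trans h)
    · exact disjoint_left.1 hAB h (h1 ▸ hb)
  have hm' : m.reverse ≠ [] := fun h => hm (List.reverse_eq_nil_iff.1 h)
  obtain ⟨p, A', rfl⟩ : ∃ p A', l = p :: A' := by
    cases l with
    | nil => exact absurd rfl hl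
    | cons p A' => exact ⟨p, A', rfl⟩
  obtain ⟨q, B', hB'⟩ : ∃ q B', m.reverse = q :: B' := by
    cases hr : m.reverse with
    | nil => exact absurd hr hm'
    | cons q B' => exact ⟨q, B', rfl⟩
  have hmr : m = (q :: B').reverse := by rw [← hB', List.reverse_reverse]
  subst hmr
  obtain ⟨r, C', rfl⟩ : ∃ r C', Q = r :: C' := by
    cases Q with
    | nil => exact absurd rfl hQ0
    | cons r C' => exact ⟨r, C', rfl⟩
  -- edges
  have hA1 : ∀ e ∈ we (x :: p :: (A' ++ [y])), e ∈ F := hC.arc1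
  have hB1 : ∀ e ∈ we (x :: q :: (B' ++ [y])), e ∈ F := by
    intro e he
    refine hC.arc2 e ?_
    have e1 : y :: ((q :: B').reverse ++ [x]) = (x :: q :: (B' ++ [y])).reverse := by
      have e2 : x :: q :: (B' ++ [y]) = (x :: (q :: B')) ++ [y] := rfl
      rw [e2, List.reverse_append, List.reverse_cons (a := x)]
      rfl
    rw [e1, we_rev]
    exact he
  have hC1 : ∀ e ∈ we (x :: r :: (C' ++ [y])), e ∈ F := hQ
  -- nodup
  have hnd := hC.nd
  rw [List.nodup_cons, List.nodup_append] at hnd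
  obtain ⟨hxn, hln, hmn, hlm⟩ := hnd
  rw [List.nodup_cons] at hmn
  obtain ⟨hyn, hmn⟩ := hmn
  have hBn : (q :: B').Nodup := List.nodup_reverse.1 hmn
  have mr : ∀ a, a ∈ q :: B' ↔ a ∈ (q :: B').reverse := fun a => List.mem_reverse.symm
  have hmemC : ∀ a, a ∈ x :: (p :: A' ++ y :: (q :: B').reverse) ↔
      a = x ∨ a ∈ p :: A' ∨ a = y ∨ a ∈ q :: B' := by
    intro a
    simp only [List.mem_cons, List.mem_append, List.mem_reverse]
  have hn : (x :: y :: ((p :: A') ++ ((q :: B') ++ (r :: C')))).Nodup := by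
    rw [List.nodup_cons, List.nodup_cons, List.nodup_append, List.nodup_append]
    refine ⟨?_, ?_, hln, ⟨hBn, hQn, ?_⟩, ?_⟩
    · intro h
      rw [List.mem_cons, List.mem_append, List.mem_append] at h
      rcases h with h | h | h | h
      · exact hxn (List.mem_append_right _ (by rw [h]; exact List.mem_cons_self))
      · exact hxn (List.mem_append_left _ h)
      · exact hxn (List.mem_append_right _ (List.mem_cons_of_mem _ ((mr x).1 h)))
      · exact hQC x h List.mem_cons_self
    · intro h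
      rw [List.mem_append, List.mem_append] at h
      rcases h with h | h | h
      · exact hlm y h y List.mem_cons_self rfl
      · exact hyn ((mr y).1 h)
      · exact hQC y h ((hmemC y).2 (Or.inr (Or.inr (Or.inl rfl))))
    · intro a ha c hc' h
      exact hQC c hc' ((hmemC c).2 (Or.inr (Or.inr (Or.inr (h ▸ ha)))))
    · intro a ha c hc' h
      rcases List.mem_append.1 hc' with h1 | h1
      · exact hlm a ha c (List.mem_cons_of_mem _ ((mr c).1 h1)) h
      · exact hQC c h1 ((hmemC c).2 (Or.inr (Or.inl (h ▸ ha))))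
  -- membership in `A + v`
  have subC : ∀ a, (a = x ∨ a ∈ p :: A' ∨ a = y ∨ a ∈ q :: B') → a = v ∨ a ∈ A := fun a ha =>
    hC.sub a ((hmemC a).2 ha)
  have hz : b ∉ x :: y :: ((p :: A') ++ ((q :: B') ++ (r :: C'))) := by
    intro h
    rw [List.mem_cons, List.mem_cons, List.mem_append, List.mem_append] at h
    rcases h with h | h | h | h | h
    · exact hbn b (subC b (Or.inl h)) rfl
    · exact hbn b (subC b (Or.inr (Or.inr (Or.inl h)))) rfl
    · exact hbn b (subC b (Or.inr (Or.inl h))) rfl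
    · exact hbn b (subC b (Or.inr (Or.inr (Or.inr h)))) rfl
    · exact hbn b (Or.inr (hQA b h)) rfl
  have hth := theta hG hp hn hA1 hB1 hC1 hz
  rw [List.nodup_cons, List.nodup_cons, List.nodup_append, List.nodup_append] at hn
  obtain ⟨hx1, hy1, _, ⟨_, _, dBC⟩, dA⟩ := hn
  -- one theta cycle
  have fin : ∀ (P R : List V) (t : V), (∀ e ∈ we (x :: (P ++ [y])), e ∈ F) →
      (∀ e ∈ we (x :: (R ++ [y])), e ∈ F) → (∀ a ∈ P, a = v ∨ a ∈ A) →
      (∀ a ∈ R, a = v ∨ a ∈ A) → (t = v ∨ t ∈ A) → t ≠ x → t ≠ y → t ∉ P → t ∉ R →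
      cy (cr cross s(t, b)) (x :: (P ++ y :: R.reverse)) = 1 → Acy cross (Un cross W F) := by
    intro P R t hP hR hPA hRA ht htx hty htP htR h1
    have hsub : ∀ a ∈ x :: (P ++ y :: R.reverse), a = v ∨ a ∈ A := by
      intro a ha
      rw [List.mem_cons, List.mem_append, List.mem_cons, List.mem_reverse] at ha
      rcases ha with h | h | h | h
      · exact subC a (Or.inl h)
      · exact hPA a h
      · exact subC a (Or.inr (Or.inr (Or.inl h)))
      · exact hRA a h
    refine cycv hG hF hp hc hv ⟨b, hb⟩ hAB hABW hs (L := x :: (P ++ y :: R.reverse)) (x := t)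
      (y := b) hsub ?_ (hsubW t ht) (hBW b hb).1 ?_ ?_ h1 ih
    · intro e he
      rw [mem_ce_mid] at he
      rcases he with he | he
      · exact hP e he
      · refine hR e ?_
        have e1 : y :: (R.reverse ++ [x]) = (x :: (R ++ [y])).reverse := by
          rw [List.reverse_cons, List.reverse_append]
          rfl
        rw [e1, we_rev] at he
        exact he
    · intro h
      rw [List.mem_cons, List.mem_append, List.mem_cons, List.mem_reverse] at h
      rcases h with h | h | h | h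
      · exact htx h
      · exact htP h
      · exact hty h
      · exact htR h
    · intro h
      exact hbn b (hsub b h) rfl
  have pA : ∀ a ∈ p :: A', a = v ∨ a ∈ A := fun a ha => subC a (Or.inr (Or.inl ha))
  have qB : ∀ a ∈ q :: B', a = v ∨ a ∈ A := fun a ha => subC a (Or.inr (Or.inr (Or.inr ha)))
  have rC : ∀ a ∈ r :: C', a = v ∨ a ∈ A := fun a ha => Or.inr (hQA a ha)
  have ps : p ∈ p :: A' := List.mem_cons_self
  have qs : q ∈ q :: B' := List.mem_cons_self
  have rs : r ∈ r :: C' := List.mem_cons_self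
  have hA2 : ∀ e ∈ we (x :: ((p :: A') ++ [y])), e ∈ F := hA1
  have hB2 : ∀ e ∈ we (x :: ((q :: B') ++ [y])), e ∈ F := hB1
  have hC2 : ∀ e ∈ we (x :: ((r :: C') ++ [y])), e ∈ F := hC1
  have xne : ∀ t ∈ (p :: A') ++ ((q :: B') ++ (r :: C')), t ≠ x := fun t ht h =>
    hx1 (List.mem_cons_of_mem _ (h ▸ ht))
  have yne : ∀ t ∈ (p :: A') ++ ((q :: B') ++ (r :: C')), t ≠ y := fun t ht h => hy1 (h ▸ ht)
  have ip : p ∈ (p :: A') ++ ((q :: B') ++ (r :: C')) := List.mem_append_left _ ps
  have iq : q ∈ (p :: A') ++ ((q :: B') ++ (r :: C')) :=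
    List.mem_append_right _ (List.mem_append_left _ qs)
  have ir : r ∈ (p :: A') ++ ((q :: B') ++ (r :: C')) :=
    List.mem_append_right _ (List.mem_append_right _ rs)
  rcases zmod2 (cy (cr cross s(r, b)) (x :: ((p :: A') ++ y :: (q :: B').reverse))) with h1 | h1
  · rcases zmod2 (cy (cr cross s(q, b)) (x :: ((p :: A') ++ y :: (r :: C').reverse))) with h2 | h2
    · rcases zmod2 (cy (cr cross s(p, b)) (x :: ((q :: B') ++ y :: (r :: C').reverse))) with h3 | h3
      · rw [h1, h2, h3] at hth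
        exact absurd hth (by decide)
      · exact fin (q :: B') (r :: C') p hB2 hC2 qB rC (pA p ps) (xne p ip) (yne p ip)
          (fun h => dA p ps p (List.mem_append_left _ h) rfl)
          (fun h => dA p ps p (List.mem_append_right _ h) rfl) h3
    · exact fin (p :: A') (r :: C') q hA2 hC2 pA rC (qB q qs) (xne q iq) (yne q iq)
        (fun h => dA q h q (List.mem_append_left _ qs) rfl)
        (fun h => dBC q qs q h rfl) h2
  · exact fin (p :: A') (q :: B') r hA2 hB2 pA qB (rC r rs) (xne r ir) (yne r ir)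
      (fun h => dA r h r (List.mem_append_right _ rs) rfl)
      (fun h => dBC r h r rs rfl) h1

end H89L
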