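import Pool.Agent.Lib.H89L.LB

/-!
# H89L, file LB2: the leaf block, main theorem `lb`
-/

set_option autoImplicit false
set_option linter.unusedSectionVars false

namespace H89L

open Finset H98P H98Z H98M

variable {V : Type*} [Fintype V] [DecidableEq V]

/-- A separation with the smallest part. -/
theorem min_sep {F : Finset (Sym2 V)} {W : Finset V} (h : ∃ v A, SepV F W A v) :
    ∃ v A, SepV F W A v ∧ ∀ u A', SepV F W A' u → A.card ≤ A'.card := by
  classical
  have h0 : ∃ n, ∃ v A, SepV F W A v ∧ A.card = n := by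
    obtain ⟨v, A, h⟩ := h
    exact ⟨_, v, A, h, rfl⟩
  obtain ⟨v, A, h1, h2⟩ := Nat.find_spec h0
  refine ⟨v, A, h1, fun u A' h3 => ?_⟩
  rw [h2]
  exact Nat.find_min' h0 ⟨u, A', h3, rfl⟩

/-- Smaller sets have edges which leave them and avoid `u`. -/
theorem leave {F : Finset (Sym2 V)} {W A : Finset V} {v : V} (h : SepV F W A v)
    (hmin : ∀ u A', SepV F W A' u → A.card ≤ A'.card) {u : V} {K : Finset V} (hu : u ∈ W)
    (hK : K.Nonempty) (hKu : K ⊆ W.erase u) (hc : K.card < A.card) :
    ∃ p ∈ K, ∃ q ∈ W, q ∉ K ∧ q ≠ u ∧ s(p, q) ∈ F := by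
  by_contra hcon
  push Not at hcon
  have h1 : SepV F W K u := by
    refine ⟨hu, hK, hKu, ?_, ?_⟩
    · by_contra h2
      rw [not_nonempty_iff_eq_empty, sdiff_eq_empty_iff_subset] at h2
      have h3 := card_le_card h2
      have h4 := card_le_card h.sub
      rw [card_erase_of_mem hu] at h3
      rw [card_erase_of_mem h.hv] at h4
      have h5 := card_pos.2 h.co
      have h6 := card_sdiff_add_card_eq_card h.sub
      rw [card_erase_of_mem h.hv] at h6
      omega
    · intro x hx y hy
      obtain ⟨h2, h3⟩ := mem_sdiff.1 hy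
      obtain ⟨h4, h5⟩ := mem_erase.1 h2
      exact hcon x hx y h5 h3 h4
  have := hmin u K h1
  omega

/-- `A` is connected. -/
theorem conn_A {F : Finset (Sym2 V)} {W A : Finset V} {v : V} (h : SepV F W A v)
    (hmin : ∀ u A', SepV F W A' u → A.card ≤ A'.card) {a b : V} (ha : a ∈ A) (hb : b ∈ A) :
    (Gs F A).Reachable a b := by
  obtain ⟨K, h1, h2, h3, h4⟩ := reach_set (F := F) ha
  by_cases hKA : K = A
  · exact h3 b (hKA ▸ hb)
  · exfalso
    have hss : K ⊂ A := lt_of_le_of_ne h2 hKA
    obtain ⟨p, hp, q, hq, hqK, hqv, hpq⟩ := leave h hmin h.hv ⟨a, h1⟩ (h2.trans h.sub)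
      (card_lt_card hss)
    by_cases hqA : q ∈ A
    · exact hqK (h4 p hp q hqA (fun h5 => hqK (h5 ▸ hp)) hpq)
    · exact h.no p (h2 hp) q (mem_sdiff.2 ⟨mem_erase.2 ⟨hqv, hq⟩, hqA⟩) hpq

/-- A cycle through `v`. -/
theorem exists_cyc {F : Finset (Sym2 V)} {W A : Finset V} {v : V} (hF : F ⊆ LW W)
    (hc : ¬ Disc W F) (h : SepV F W A v)
    (hmin : ∀ u A', SepV F W A' u → A.card ≤ A'.card) (h2 : 2 ≤ A.card) :
    ∃ C, Cyc F A v C := by
  -- a neighbour of `v` in `A`
  have hvA : v ∉ A := fun h1 => (mem_erase.1 (h.sub h1)).1 rfl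
  have hAW : A ⊆ W := h.sub.trans (erase_subset _ _)
  obtain ⟨a, haA, hav⟩ : ∃ a ∈ A, s(a, v) ∈ F := by
    by_contra hcon
    push Not at hcon
    refine hc ⟨A, W \ A, h.ne, ⟨v, mem_sdiff.2 ⟨h.hv, hvA⟩⟩, disjoint_sdiff, ?_, ?_⟩
    · rw [union_sdiff_self_eq_union]
      exact union_eq_right.2 hAW
    · intro x hx y hy
      obtain ⟨h3, h4⟩ := mem_sdiff.1 hy
      by_cases hyv : y = v
      · rw [hyv]
        exact hcon x hx
      · exact h.no x hx y (mem_sdiff.2 ⟨mem_erase.2 ⟨hyv, h3⟩, h4⟩)
  -- a second one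
  obtain ⟨p, hpA, hpa, hpv⟩ : ∃ p ∈ A, p ≠ a ∧ s(p, v) ∈ F := by
    have hn : (A.erase a).Nonempty := by
      rw [← card_pos, card_erase_of_mem haA]
      omega
    obtain ⟨p, hp, q, hq, hqK, hqa, hpq⟩ := leave h hmin (u := a) (K := A.erase a) (hAW haA) hn
      (erase_subset_erase a hAW) (by rw [card_erase_of_mem haA]; omega)
    obtain ⟨h3, h4⟩ := mem_erase.1 hp
    have hqA : q ∉ A := fun h5 => hqK (mem_erase.2 ⟨hqa, h5⟩)
    have hqv : q = v := by
      by_contra h5
      exact h.no p h4 q (mem_sdiff.2 ⟨mem_erase.2 ⟨h5, hq⟩, hqA⟩) hpq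
    exact ⟨p, h4, h3, hqv ▸ hpq⟩
  obtain ⟨l, h3, h4, h5, h6⟩ := path_list (conn_A h hmin haA hpA) haA
  refine ⟨v :: a :: l, ?_, List.mem_cons_self, ?_, ?_, ?_⟩
  · rw [List.nodup_cons]
    exact ⟨fun h7 => hvA (h4 v h7), h3⟩
  · intro x hx
    rcases List.mem_cons.1 hx with h7 | h7
    · exact Or.inl h7
    · exact Or.inr (h4 x h7)
  · intro e he
    rw [ce, List.cons_append, we, List.mem_cons, mem_we_snoc, h6] at he
    rcases he with h7 | h7 | h7
    · rw [h7, Sym2.eq_swap]
      exact hav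
    · exact h5 e h7
    · rw [h7]
      exact hpv
  · cases l with
    | nil => exact absurd h6.symm hpa
    | cons c l =>
      simp only [List.length_cons]
      omega

/-- A longest cycle through `v`. -/
theorem long_cyc {F : Finset (Sym2 V)} {A : Finset V} {v : V} (h : ∃ C, Cyc F A v C) :
    ∃ C, Cyc F A v C ∧ ∀ C', Cyc F A v C' → C'.length ≤ C.length := by
  classical
  have h0 : ∃ n, ∃ C, Cyc F A v C ∧ Fintype.card V - C.length = n := by
    obtain ⟨C, h⟩ := h
    exact ⟨_, C, h, rfl⟩
  obtain ⟨C, h1, h2⟩ := Nat.find_spec h0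
  refine ⟨C, h1, fun C' h3 => ?_⟩
  have h4 := Nat.find_min' h0 ⟨C', h3, rfl⟩
  have h5 := h1.nd.length_le_card
  have h6 := h3.nd.length_le_card
  omega

/-- THE LEAF BLOCK. -/
theorem lb {cross : Sym2 V → Sym2 V → Prop} (hG : Geo cross) {W : Finset V}
    {F : Finset (Sym2 V)} {v0 : V} (hF : F ⊆ LW W) (hp : Plane cross F) (hv0 : v0 ∈ W)
    (hc : ¬ Disc W F) (hd : Disc (W.erase v0) (F.filter fun e => v0 ∉ e))
    (ih : ∀ W' : Finset V, W' ⊂ W → HCat cross W') :
    Acy cross (Un cross W F) ∨ ∃ (v : V) (l : List V) (B : Finset V), v ∈ W ∧ (v :: l).Nodup ∧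
      2 ≤ l.length ∧ (∀ e ∈ ce (v :: l), e ∈ F) ∧ B.Nonempty ∧ Disjoint l.toFinset B ∧
      l.toFinset ∪ B = W.erase v ∧ (∀ x ∈ l.toFinset, ∀ y ∈ B, s(x, y) ∉ F) ∧
      (∀ a ∈ l, ∀ b ∈ B, (∀ e ∈ ce (v :: l), ¬ cross s(a, b) e) →
        ∀ x ∈ v :: l, ∀ y ∈ v :: l, s(x, y) ∈ F → ¬ cross s(a, b) s(x, y)) ∧
      (∀ b ∈ B, ∀ b' ∈ B, cy (cr cross s(b, b')) (v :: l) = 0) ∧
      (∀ u A', SepV F W A' u → l.length ≤ A'.card) := by
  -- a minimal separation
  have hex : ∃ v A, SepV F W A v := by
    obtain ⟨C, D, hC, hD, hCD, hCDW, hs⟩ := hd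
    refine ⟨v0, C, hv0, hC, ?_, ?_, ?_⟩
    · rw [← hCDW]
      exact subset_union_left
    · obtain ⟨d, hd⟩ := hD
      refine ⟨d, mem_sdiff.2 ⟨?_, fun h => disjoint_left.1 hCD h hd⟩⟩
      rw [← hCDW]
      exact mem_union_right _ hd
    · intro x hx y hy h
      obtain ⟨h1, h2⟩ := mem_sdiff.1 hy
      have hxv : x ≠ v0 := by
        have h3 : x ∈ W.erase v0 := by rw [← hCDW]; exact mem_union_left _ hx
        exact (mem_erase.1 h3).1
      have hyD : y ∈ D := by
        rw [← hCDW] at h1
        rcases mem_union.1 h1 with h3 | h3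
        · exact absurd h3 h2
        · exact h3
      have hyv : y ≠ v0 := by
        have h3 : y ∈ W.erase v0 := by rw [← hCDW]; exact mem_union_right _ hyD
        exact (mem_erase.1 h3).1
      refine hs x hx y hyD (mem_filter.2 ⟨h, ?_⟩)
      rw [Sym2.mem_iff, not_or]
      exact ⟨hxv.symm, hyv.symm⟩
  obtain ⟨v, A, hS, hmin⟩ := min_sep hex
  have hv := hS.hv
  have hvA : v ∉ A := fun h1 => (mem_erase.1 (hS.sub h1)).1 rfl
  have hAW : A ⊆ W := hS.sub.trans (erase_subset _ _)
  obtain ⟨B, hBdef⟩ : ∃ B, B = (W.erase v) \ A := ⟨_, rfl⟩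
  have hB : B.Nonempty := by rw [hBdef]; exact hS.co
  have hAB : Disjoint A B := by rw [hBdef]; exact disjoint_sdiff
  have hABW : A ∪ B = W.erase v := by
    rw [hBdef, union_sdiff_self_eq_union]
    exact union_eq_right.2 hS.sub
  have hs : ∀ x ∈ A, ∀ y ∈ B, s(x, y) ∉ F := by
    rw [hBdef]
    exact hS.no
  have hWc : ∀ w ∈ W, w = v ∨ w ∈ A ∨ w ∈ B := by
    intro w hw
    by_cases h : w = v
    · exact Or.inl h
    · right
      rw [← mem_union, hABW]
      exact mem_erase.2 ⟨h, hw⟩
  rcases Nat.lt_or_ge A.card 2 with h2 | h2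
  · -- a leaf
    left
    have h3 := card_pos.2 hS.ne
    obtain ⟨a, ha⟩ := card_eq_one.1 (show A.card = 1 by omega)
    have haA : a ∈ A := by rw [ha]; exact mem_singleton_self a
    have hW3 : 3 ≤ W.card := by
      have h4 := card_pos.2 hB
      have h5 := card_union_of_disjoint hAB
      rw [hABW, card_erase_of_mem hv] at h5
      omega
    refine acy_leaf hG.symm hG.adj hF hp (x := a) (y := v) (hAW haA) (hG.v2 W hW3 a (hAW haA)) ?_
    intro z hz
    have h4 := (mem_LW.1 (hF hz)).2
    rcases hWc z h4.1 with h5 | h5 | h5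
    · exact h5
    · rw [ha, mem_singleton] at h5
      exact absurd h5.symm h4.2
    · exact absurd hz (hs a haA z h5)
  · obtain ⟨C, hC, hmax⟩ := long_cyc (exists_cyc hF hc hS hmin h2)
    by_cases hall : ∀ a ∈ A, a ∈ C
    · -- all of `A` is on the cycle
      obtain ⟨l1, l2, rfl⟩ := List.append_of_mem hC.hv
      have hC' := hC.rot
      have hnd := hC'.nd
      rw [List.nodup_cons] at hnd
      have hmem : ∀ a, a ∈ l1 ++ v :: l2 ↔ a ∈ v :: (l2 ++ l1) := fun a =>
        (List.perm_append_comm : (l1 ++ v :: l2).Perm ((v :: l2) ++ l1)).mem_iff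
      have hlA : (l2 ++ l1).toFinset = A := by
        ext a
        rw [List.mem_toFinset]
        constructor
        · intro h
          rcases hC'.sub a (List.mem_cons_of_mem _ h) with h1 | h1
          · exact absurd (h1 ▸ h) hnd.1
          · exact h1
        · intro h
          rcases List.mem_cons.1 ((hmem a).1 (hall a h)) with h1 | h1
          · exact absurd (h1 ▸ h) hvA
          · exact h1
      have hlen : (l2 ++ l1).length = A.card := by
        rw [← hlA, List.toFinset_card_of_nodup hnd.2]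
      by_cases hst : Acy cross (Un cross W F)
      · exact Or.inl hst
      right
      refine ⟨v, l2 ++ l1, B, hv, hC'.nd, by omega, hC'.ed, hB, by rw [hlA]; exact hAB,
        by rw [hlA]; exact hABW, by rw [hlA]; exact hs, ?_, ?_, ?_⟩
      · intro a ha b hb hab x hx y hy hxy hcr
        refine hst (star hG hF hp hc hv hB hAB hABW hs ih hC' (a := a) (b := b) (x := x) (y := y)
          (List.mem_cons_of_mem _ ha) ?_ hb hx hy hxy hab hcr)
        rw [← hlA, List.mem_toFinset]
        exact ha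
      · intro b hb b' hb'
        by_contra h
        have h1 : cy (cr cross s(b, b')) (v :: (l2 ++ l1)) = 1 := (zmod2 _).resolve_left h
        have hBW : ∀ b ∈ B, b ∈ W ∧ b ∉ v :: (l2 ++ l1) := by
          intro b hb
          have h3 : b ∈ W.erase v := by rw [← hABW]; exact mem_union_right _ hb
          refine ⟨(mem_erase.1 h3).2, fun h4 => ?_⟩
          rcases hC'.sub b h4 with h5 | h5
          · exact (mem_erase.1 h3).1 h5
          · exact disjoint_left.1 hAB h5 hb
        exact hst (cycv hG hF hp hc hv hB hAB hABW hs hC'.sub hC'.ed (hBW b hb).1 (hBW b' hb').1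
          (hBW b hb).2 (hBW b' hb').2 h1 ih)
      · intro u A' h
        rw [hlen]
        exact hmin u A' h
    · -- a vertex off the cycle
      left
      push Not at hall
      obtain ⟨z, hzA, hzC⟩ := hall
      obtain ⟨S, hSdef⟩ : ∃ S : Finset V, ∀ a, a ∈ S ↔ a ∈ A ∧ a ∉ C :=
        ⟨A.filter fun a => a ∉ C, fun a => mem_filter⟩
      have hzS : z ∈ S := (hSdef z).2 ⟨hzA, hzC⟩
      obtain ⟨K, hK1, hK2, hK3, hK4⟩ := reach_set (F := F) hzS
      have hKA : K ⊆ A := fun a ha => ((hSdef a).1 (hK2 ha)).1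
      have hKC : ∀ a ∈ K, a ∉ C := fun a ha => ((hSdef a).1 (hK2 ha)).2
      have hreach := reach_in hK1 hK3 hK2 hK4
      -- a vertex of `A` on the cycle
      obtain ⟨c, hcC, hcA⟩ : ∃ c ∈ C, c ∈ A := by
        by_contra hcon
        push Not at hcon
        have h3 : ∀ a ∈ C, a = v := fun a ha => (hC.sub a ha).resolve_right (hcon a ha)
        have h4 := hC.len
        have h5 := hC.nd
        cases C with
        | nil => simp at h4
        | cons a C =>
          cases C with
          | nil => simp at h4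
          | cons b C =>
            rw [List.nodup_cons] at h5
            refine h5.1 ?_
            rw [h3 a List.mem_cons_self,
              ← h3 b (List.mem_cons_of_mem _ List.mem_cons_self)]
            exact List.mem_cons_self
      have hKss : K ⊂ A := ⟨hKA, fun h => hKC c (h hcA) hcC⟩
      have hKcard := card_lt_card hKss
      have hKW : ∀ u, u ∉ K → K ⊆ W.erase u := fun u hu a ha =>
        mem_erase.2 ⟨fun h => hu (h ▸ ha), hAW (hKA ha)⟩
      -- neighbours outside `K` are on the cycle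
      have hout : ∀ p ∈ K, ∀ q ∈ W, q ∉ K → s(p, q) ∈ F → q ∈ C := by
        intro p hp' q hq hqK hpq
        by_contra hqC
        rcases hWc q hq with h5 | h5 | h5
        · exact hqC (h5 ▸ hC.hv)
        · exact hqK (hK4 p hp' q ((hSdef q).2 ⟨h5, hqC⟩) (fun h => hqK (h ▸ hp')) hpq)
        · exact hs p (hKA hp') q h5 hpq
      obtain ⟨p1, hp1, q1, hq1, hq1K, _, hpq1⟩ := leave hS hmin (u := v) (K := K) hv ⟨z, hK1⟩
        (hKW v fun h => hvA (hKA h)) hKcard
      have hq1C := hout p1 hp1 q1 hq1 hq1K hpq1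
      obtain ⟨p2, hp2, q2, hq2, hq2K, hq21, hpq2⟩ := leave hS hmin (u := q1) (K := K) hq1
        ⟨z, hK1⟩ (hKW q1 hq1K) hKcard
      have hq2C := hout p2 hp2 q2 hq2 hq2K hpq2
      obtain ⟨Q', hQ1, hQ2, hQ3, hQ4⟩ := path_list (F := F) (S := K)
        ((hreach p1 hp1).symm.trans (hreach p2 hp2)) hp1
      -- the ear `q1, p1 .. p2, q2`
      have hear : ∀ e ∈ we (q1 :: ((p1 :: Q') ++ [q2])), e ∈ F := by
        intro e he
        rw [List.cons_append, we, List.mem_cons, mem_we_snoc, hQ4] at he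
        rcases he with h5 | h5 | h5
        · rw [h5, Sym2.eq_swap]
          exact hpq1
        · exact hQ3 e h5
        · rw [h5]
          exact hpq2
      obtain ⟨l, m, h1, h3, h4, h5⟩ := hC.two hq1C hq2C (Ne.symm hq21)
      have hQC : ∀ a ∈ p1 :: Q', a ∉ q1 :: (l ++ q2 :: m) := fun a ha h6 =>
        hKC a (hQ2 a ha) ((h3 a).2 h6)
      by_cases hl : l = []
      · -- a longer cycle
        exfalso
        subst hl
        have h6 : Cyc F A v (q1 :: ((p1 :: Q') ++ q2 :: m)) :=
          Cyc.ear h1 hear hQ1 (fun a ha => hKA (hQ2 a ha)) hQC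
        have h7 := hmax _ h6
        rw [h5] at h7
        simp only [List.length_cons, List.length_append, List.nil_append] at h7
        omega
      by_cases hm : m = []
      · exfalso
        subst hm
        have h6 : Cyc F A v ((q1 :: l) ++ q2 :: []) := h1
        have h7 : Cyc F A v (q2 :: q1 :: l) := h6.rot
        have h8 : Cyc F A v (q2 :: ((p1 :: Q').reverse ++ q1 :: l)) := by
          refine Cyc.ear h7 ?_ (List.nodup_reverse.2 hQ1)
            (fun a ha => hKA (hQ2 a (List.mem_reverse.1 ha))) ?_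
          · intro e he
            have e1 : q2 :: ((p1 :: Q').reverse ++ [q1]) = (q1 :: ((p1 :: Q') ++ [q2])).reverse := by
              rw [List.reverse_cons (a := q1), List.reverse_append]
              rfl
            rw [e1, we_rev] at he
            exact hear e he
          · intro a ha h9
            refine hQC a (List.mem_reverse.1 ha) ?_
            rcases List.mem_cons.1 h9 with h10 | h10
            · rw [h10]
              exact List.mem_cons_of_mem _ (List.mem_append_right _ List.mem_cons_self)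
            · rcases List.mem_cons.1 h10 with h11 | h11
              · rw [h11]
                exact List.mem_cons_self
              · exact List.mem_cons_of_mem _ (List.mem_append_left _ h11)
        have h9 := hmax _ h8
        rw [h5] at h9
        simp only [List.length_cons, List.length_append, List.length_reverse, List.length_nil] at h9
        omega
      exact theta_acy hG hF hp hc hv hB hAB hABW hs ih h1 hl hm (by simp) hear hQ1
        (fun a ha => hKA (hQ2 a ha)) hQC

end H89L
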