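import Pool.Agent.Lib.H98M.MC0
import Pool.Agent.Lib.H98M.MK

/-!
# H89L, file Theta: a plane theta graph and a further vertex

`K_{3,3}` has an odd number of crossings of independent edges (`k33`). A plane theta graph with the paths
`x, A, y`, `x, B, y`, `x, C, y` (`A, B, C` not empty, `p, q, r` their first vertices) and a vertex `z` off it:
one of the three cycles has the omitted one of `p, q, r` and `z` on different sides (`theta`).
-/

set_option autoImplicit false
set_option linter.unusedSectionVars false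

namespace H89L

open Finset H98P H98Z H98M

variable {V : Type*} [Fintype V] [DecidableEq V]

theorem k33 {cross : Sym2 V → Sym2 V → Prop} (hG : Geo cross) {x y z p q r : V}
    (hn : [x, y, z, p, q, r].Nodup) :
    (cr cross s(x, p) s(y, q) + cr cross s(x, p) s(y, r) + cr cross s(x, p) s(z, q) +
      cr cross s(x, p) s(z, r)) +
    (cr cross s(x, q) s(y, p) + cr cross s(x, q) s(y, r) + cr cross s(x, q) s(z, p) +
      cr cross s(x, q) s(z, r)) +
    (cr cross s(x, r) s(y, p) + cr cross s(x, r) s(y, q) + cr cross s(x, r) s(z, p) +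
      cr cross s(x, r) s(z, q)) +
    (cr cross s(y, p) s(z, q) + cr cross s(y, p) s(z, r)) +
    (cr cross s(y, q) s(z, p) + cr cross s(y, q) s(z, r)) +
    (cr cross s(y, r) s(z, p) + cr cross s(y, r) s(z, q)) = 1 := by
  simp only [List.nodup_cons, List.mem_cons, List.not_mem_nil, or_false, not_or, List.nodup_nil,
    and_true, not_false_eq_true] at hn
  obtain ⟨⟨h1, h2, h3, h4, h5⟩, ⟨h6, h7, h8, h9⟩, ⟨h10, h11, h12⟩, ⟨h13, h14⟩, h15⟩ := hn
  have n5 : ∀ a b : V, a ≠ b → a ≠ p → a ≠ q → a ≠ r → b ≠ p → b ≠ q → b ≠ r →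
      [a, b, p, q, r].Nodup := by
    intro a b i1 i2 i3 i4 i5 i6 i7
    simp [i1, i2, i3, i4, i5, i6, i7, h13, h14, h15]
  have f1 := hG.five x y p q r (n5 x y h1 h3 h4 h5 h7 h8 h9)
  have f2 := hG.five x z p q r (n5 x z h2 h3 h4 h5 h10 h11 h12)
  have f3 := hG.five y z p q r (n5 y z h6 h7 h8 h9 h10 h11 h12)
  have ht := hG.tri x y z p q r (by
    simp [h1, h2, h3, h4, h5, h6, h7, h8, h9, h10, h11, h12, h13, h14, h15])
  rw [cr_comm hG s(y, p) s(x, r), cr_comm hG s(y, q) s(x, r), cr_comm hG s(p, q) s(x, r),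
    cr_comm hG s(p, q) s(y, r)] at f1
  rw [cr_comm hG s(z, p) s(x, r), cr_comm hG s(z, q) s(x, r), cr_comm hG s(p, q) s(x, r),
    cr_comm hG s(p, q) s(z, r)] at f2
  rw [cr_comm hG s(z, p) s(y, r), cr_comm hG s(z, q) s(y, r), cr_comm hG s(p, q) s(y, r),
    cr_comm hG s(p, q) s(z, r)] at f3
  have t1 := two_zmod (cr cross s(x, p) s(q, r))
  have t2 := two_zmod (cr cross s(x, q) s(p, r))
  have t3 := two_zmod (cr cross s(x, r) s(p, q))
  have t4 := two_zmod (cr cross s(y, p) s(q, r))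
  have t5 := two_zmod (cr cross s(y, q) s(p, r))
  have t6 := two_zmod (cr cross s(y, r) s(p, q))
  have t7 := two_zmod (cr cross s(z, p) s(q, r))
  have t8 := two_zmod (cr cross s(z, q) s(p, r))
  have t9 := two_zmod (cr cross s(z, r) s(p, q))
  have t0 := two_zmod (1 : ZMod 2)
  linear_combination f1 + f2 + f3 - ht - t1 - t2 - t3 - t4 - t5 - t6 - t7 - t8 - t9 + t0

/-- A path from `p` to `y` against the four-cycle `x q z r`. -/
theorem path4 {cross : Sym2 V → Sym2 V → Prop} (hG : Geo cross) {x z q r p y : V} {A : List V}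
    (hx : x ∉ p :: (A ++ [y])) (hz : z ∉ p :: (A ++ [y])) (hq : q ∉ p :: (A ++ [y]))
    (hr : r ∉ p :: (A ++ [y])) :
    (wk (cr cross s(x, q)) (p :: (A ++ [y])) + wk (cr cross s(q, z)) (p :: (A ++ [y])) +
      wk (cr cross s(z, r)) (p :: (A ++ [y])) + wk (cr cross s(r, x)) (p :: (A ++ [y]))) +
    (cr cross s(x, q) s(y, p) + cr cross s(q, z) s(y, p) + cr cross s(z, r) s(y, p) +
      cr cross s(r, x) s(y, p)) = 0 := by
  have h := cy_cy hG x p [q, z, r] (A ++ [y]) (by
    intro u hu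
    simp only [List.mem_cons, List.not_mem_nil, or_false] at hu
    rcases hu with rfl | rfl | rfl | rfl
    · exact hx
    · exact hq
    · exact hz
    · exact hr)
  have hc : ∀ e : Sym2 V, cy (cr cross e) (p :: (A ++ [y])) =
      wk (cr cross e) (p :: (A ++ [y])) + cr cross e s(y, p) := by
    intro e
    rw [cy, wk_snoc]
    congr 2
    rw [getLastD_append]
  simp only [cy, List.cons_append, List.nil_append, wk] at h
  have h' : cy (cr cross s(x, q)) (p :: (A ++ [y])) + (cy (cr cross s(q, z)) (p :: (A ++ [y])) +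
      (cy (cr cross s(z, r)) (p :: (A ++ [y])) + (cy (cr cross s(r, x)) (p :: (A ++ [y])) + 0))) =
      0 := h
  rw [hc, hc, hc, hc] at h'
  linear_combination h'

theorem wk_F {cross : Sym2 V → Sym2 V → Prop} {F : Finset (Sym2 V)} (hp : Plane cross F)
    {e : Sym2 V} (he : e ∈ F) {l : List V} (hl : ∀ f ∈ we l, f ∈ F) : wk (cr cross e) l = 0 :=
  wk_zero _ _ fun f hf => cr_zero (hp e he f (hl f hf))

/-- The edges of a theta cycle. -/
theorem cy_theta (g : Sym2 V → ZMod 2) (x y : V) (A B : List V) :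
    cy g (x :: (A ++ y :: B.reverse)) = wk g (x :: (A ++ [y])) + wk g (x :: (B ++ [y])) := by
  have e1 : A ++ y :: B.reverse ++ [x] = A ++ y :: (B.reverse ++ [x]) := by
    rw [List.append_assoc]
    rfl
  have e2 : (x :: (B ++ [y])).reverse = y :: (B.reverse ++ [x]) := by
    rw [List.reverse_cons, List.reverse_append]
    rfl
  rw [cy, e1, wk_append, ← e2, wk_reverse, wk_snoc, wk_snoc]

/-- THETA. -/
theorem theta {cross : Sym2 V → Sym2 V → Prop} (hG : Geo cross) {F : Finset (Sym2 V)}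
    (hp : Plane cross F) {x y p q r : V} {A B C : List V}
    (hn : (x :: y :: ((p :: A) ++ ((q :: B) ++ (r :: C)))).Nodup)
    (hA : ∀ e ∈ we (x :: p :: (A ++ [y])), e ∈ F) (hB : ∀ e ∈ we (x :: q :: (B ++ [y])), e ∈ F)
    (hC : ∀ e ∈ we (x :: r :: (C ++ [y])), e ∈ F) {z : V}
    (hz : z ∉ x :: y :: ((p :: A) ++ ((q :: B) ++ (r :: C)))) :
    cy (cr cross s(r, z)) (x :: ((p :: A) ++ y :: (q :: B).reverse)) +
      cy (cr cross s(q, z)) (x :: ((p :: A) ++ y :: (r :: C).reverse)) +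
      cy (cr cross s(p, z)) (x :: ((q :: B) ++ y :: (r :: C).reverse)) = 1 := by
  have hzx : z ≠ x := fun h => hz (h ▸ List.mem_cons_self)
  have hzy : z ≠ y := fun h => hz (h ▸ List.mem_cons_of_mem _ List.mem_cons_self)
  have hzA : ∀ u ∈ p :: A, z ≠ u := fun u hu h => hz (h ▸ List.mem_cons_of_mem _
    (List.mem_cons_of_mem _ (List.mem_append_left _ hu)))
  have hzB : ∀ u ∈ q :: B, z ≠ u := fun u hu h => hz (h ▸ List.mem_cons_of_mem _
    (List.mem_cons_of_mem _ (List.mem_append_right _ (List.mem_append_left _ hu))))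
  have hzC : ∀ u ∈ r :: C, z ≠ u := fun u hu h => hz (h ▸ List.mem_cons_of_mem _
    (List.mem_cons_of_mem _ (List.mem_append_right _ (List.mem_append_right _ hu))))
  rw [List.nodup_cons, List.nodup_cons] at hn
  obtain ⟨hx, hy, hn⟩ := hn
  rw [List.nodup_append] at hn
  obtain ⟨hnA, hn, hAB⟩ := hn
  rw [List.nodup_append] at hn
  obtain ⟨hnB, hnC, hBC⟩ := hn
  have hxy : x ≠ y := fun h => hx (h ▸ List.mem_cons_self)
  have hxA : ∀ u ∈ p :: A, x ≠ u := fun u hu h => hx (h ▸ List.mem_cons_of_mem _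
    (List.mem_append_left _ hu))
  have hxB : ∀ u ∈ q :: B, x ≠ u := fun u hu h => hx (h ▸ List.mem_cons_of_mem _
    (List.mem_append_right _ (List.mem_append_left _ hu)))
  have hxC : ∀ u ∈ r :: C, x ≠ u := fun u hu h => hx (h ▸ List.mem_cons_of_mem _
    (List.mem_append_right _ (List.mem_append_right _ hu)))
  have hyA : ∀ u ∈ p :: A, y ≠ u := fun u hu h => hy (h ▸ List.mem_append_left _ hu)
  have hyB : ∀ u ∈ q :: B, y ≠ u := fun u hu h => hy (h ▸
    (List.mem_append_right _ (List.mem_append_left _ hu)))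
  have hyC : ∀ u ∈ r :: C, y ≠ u := fun u hu h => hy (h ▸
    (List.mem_append_right _ (List.mem_append_right _ hu)))
  have dAB : ∀ u ∈ p :: A, ∀ w ∈ q :: B, u ≠ w := fun u hu w hw =>
    hAB u hu w (List.mem_append_left _ hw)
  have dAC : ∀ u ∈ p :: A, ∀ w ∈ r :: C, u ≠ w := fun u hu w hw =>
    hAB u hu w (List.mem_append_right _ hw)
  have dBC : ∀ u ∈ q :: B, ∀ w ∈ r :: C, u ≠ w := fun u hu w hw => hBC u hu w hw
  have ps : p ∈ p :: A := List.mem_cons_self
  have qs : q ∈ q :: B := List.mem_cons_self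
  have rs : r ∈ r :: C := List.mem_cons_self
  have hK := k33 hG (x := x) (y := y) (z := z) (p := p) (q := q) (r := r) (by
    simp [hxy, Ne.symm hzx, Ne.symm hzy, hxA p ps, hxB q qs, hxC r rs, hyA p ps, hyB q qs,
      hyC r rs, hzA p ps, hzB q qs, hzC r rs, dAB p ps q qs, dAC p ps r rs, dBC q qs r rs])
  -- edges in F
  have exp : s(x, p) ∈ F := hA _ (by rw [we]; exact List.mem_cons_self)
  have exq : s(x, q) ∈ F := hB _ (by rw [we]; exact List.mem_cons_self)
  have exr : s(x, r) ∈ F := hC _ (by rw [we]; exact List.mem_cons_self)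
  have hA' : ∀ e ∈ we (p :: (A ++ [y])), e ∈ F := fun e he => hA e (by
    rw [we]; exact List.mem_cons_of_mem _ he)
  have hB' : ∀ e ∈ we (q :: (B ++ [y])), e ∈ F := fun e he => hB e (by
    rw [we]; exact List.mem_cons_of_mem _ he)
  have hC' : ∀ e ∈ we (r :: (C ++ [y])), e ∈ F := fun e he => hC e (by
    rw [we]; exact List.mem_cons_of_mem _ he)
  -- not on the paths
  have off : ∀ (u w : V) (D : List V), (∀ t ∈ w :: D, u ≠ t) → u ≠ y → u ∉ w :: (D ++ [y]) := by
    intro u w D h1 h2 h3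
    rcases List.mem_cons.1 h3 with h | h
    · exact h1 w List.mem_cons_self h
    · rcases List.mem_append.1 h with h | h
      · exact h1 u (List.mem_cons_of_mem _ h) rfl
      · exact h2 (List.mem_singleton.1 h)
  have pA := path4 hG (x := x) (z := z) (q := q) (r := r) (p := p) (y := y) (A := A)
    (off _ _ _ hxA hxy) (off _ _ _ hzA hzy) (off _ _ _ (fun t ht => (dAB t ht q qs).symm)
      (Ne.symm (hyB q qs))) (off _ _ _ (fun t ht => (dAC t ht r rs).symm) (Ne.symm (hyC r rs)))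
  have pB := path4 hG (x := x) (z := z) (q := p) (r := r) (p := q) (y := y) (A := B)
    (off _ _ _ hxB hxy) (off _ _ _ hzB hzy) (off _ _ _ (fun t ht => (dAB p ps t ht))
      (Ne.symm (hyA p ps))) (off _ _ _ (fun t ht => (dBC t ht r rs).symm) (Ne.symm (hyC r rs)))
  have pC := path4 hG (x := x) (z := z) (q := p) (r := q) (p := r) (y := y) (A := C)
    (off _ _ _ hxC hxy) (off _ _ _ hzC hzy) (off _ _ _ (fun t ht => (dAC p ps t ht))
      (Ne.symm (hyA p ps))) (off _ _ _ (fun t ht => (dBC q qs t ht)) (Ne.symm (hyB q qs)))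
  have sw : ∀ a b : V, s(a, b) = s(b, a) := fun a b => Sym2.eq_swap
  rw [sw r x] at pA pB
  rw [sw q x] at pC
  rw [sw q z] at pA
  rw [sw p z] at pB pC
  rw [wk_F hp exq hA', wk_F hp exr hA'] at pA
  rw [wk_F hp exp hB', wk_F hp exr hB'] at pB
  rw [wk_F hp exp hC', wk_F hp exq hC'] at pC
  rw [cy_theta, cy_theta, cy_theta, sw r z, sw q z, sw p z]
  rw [List.cons_append, List.cons_append, List.cons_append, wk_cons2, wk_cons2, wk_cons2, wk_cons2,
    wk_cons2, wk_cons2]
  have c1 := cr_comm hG s(z, q) s(y, p)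
  have c2 := cr_comm hG s(z, r) s(y, p)
  have c3 := cr_comm hG s(z, p) s(y, q)
  have c4 := cr_comm hG s(z, r) s(y, q)
  have c5 := cr_comm hG s(z, p) s(y, r)
  have c6 := cr_comm hG s(z, q) s(y, r)
  have d1 := cr_comm hG s(z, r) s(x, p)
  have d2 := cr_comm hG s(z, r) s(x, q)
  have d3 := cr_comm hG s(z, q) s(x, p)
  have d4 := cr_comm hG s(z, q) s(x, r)
  have d5 := cr_comm hG s(z, p) s(x, q)
  have d6 := cr_comm hG s(z, p) s(x, r)
  rw [c1, c2] at pA
  rw [c3, c4] at pB
  rw [c5, c6] at pC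
  rw [d1, d2, d3, d4, d5, d6]
  have m : ∀ a : ZMod 2, a = -a := by decide
  have tA := two_zmod (cr cross s(x, q) s(y, p) + cr cross s(x, r) s(y, p) +
    cr cross s(y, p) s(z, q) + cr cross s(y, p) s(z, r))
  have tB := two_zmod (cr cross s(x, p) s(y, q) + cr cross s(x, r) s(y, q) +
    cr cross s(y, q) s(z, p) + cr cross s(y, q) s(z, r))
  have tC := two_zmod (cr cross s(x, p) s(y, r) + cr cross s(x, q) s(y, r) +
    cr cross s(y, r) s(z, p) + cr cross s(y, r) s(z, q))
  linear_combination hK + pA + pB + pC - tA - tB - tC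

end H89L
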